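import Pool.Agent.W79.ST.Basic

/-!
Project ST: the base graph and the difference graph (S_BASE).
-/

set_option autoImplicit false

namespace Pool.Agent.W645.ST.Base

open scoped Classical
open Pool.Agent.W79.ST

variable {V : Type}

/-- the number of neighbours of `u` in the orbit of `x` -/
noncomputable def dg (G : SimpleGraph V) (D : Subgroup (Equiv.Perm V)) (u x : V) : ℕ :=
  ({y | y ∈ orb D x ∧ G.Adj u y} : Set V).ncard

theorem base_iff (G : SimpleGraph V) (D : Subgroup (Equiv.Perm V)) (u x : V) :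
    base G D u x ↔ os D x < 2 * dg G D u x := Iff.rfl

theorem dg_apply {G : SimpleGraph V} {D : Subgroup (Equiv.Perm V)} (hD : D ≤ aut G)
    {σ τ : Equiv.Perm V} (hσ : σ ∈ D) (hτ : τ ∈ D) (u x : V) :
    dg G D (σ u) (τ x) = dg G D u x := by
  unfold dg
  rw [orb_apply hτ]
  rw [← Set.ncard_image_of_injective {y | y ∈ orb D x ∧ G.Adj u y} σ.injective]
  congr 1
  ext y
  constructor
  · rintro ⟨h1, h2⟩
    refine ⟨σ⁻¹ y, ⟨?_, ?_⟩, σ.apply_symm_apply y⟩
    · obtain ⟨ρ, hρ, rfl⟩ := h1
      exact ⟨σ⁻¹ * ρ, D.mul_mem (D.inv_mem hσ) hρ, rfl⟩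
    · have h3 := (mem_aut.1 (hD hσ)) u (σ⁻¹ y)
      have h4 : σ (σ⁻¹ y) = y := σ.apply_symm_apply y
      rw [h4] at h3
      exact h3.1 h2
  · rintro ⟨z, ⟨h1, h2⟩, rfl⟩
    refine ⟨?_, ?_⟩
    · obtain ⟨ρ, hρ, rfl⟩ := h1
      exact ⟨σ * ρ, D.mul_mem hσ hρ, rfl⟩
    · exact (mem_aut.1 (hD hσ) u z).2 h2

theorem double [Fintype V] {G : SimpleGraph V} {D : Subgroup (Equiv.Perm V)} (hD : D ≤ aut G)
    (u x : V) : os D u * dg G D u x = os D x * dg G D x u := by
  have key := Finset.sum_card_bipartiteAbove_eq_sum_card_bipartiteBelow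
    (s := (orb D u).toFinset) (t := (orb D x).toFinset) (r := fun a b => G.Adj a b)
  have h1 : ∀ a ∈ (orb D u).toFinset,
      (Finset.bipartiteAbove (fun a b => G.Adj a b) (orb D x).toFinset a).card = dg G D u x := by
    intro a ha
    rw [Set.mem_toFinset] at ha
    obtain ⟨σ, hσ, rfl⟩ := ha
    rw [← dg_apply hD hσ D.one_mem u x]
    unfold dg
    rw [← Set.ncard_coe_finset]
    congr 1
    ext y
    simp [Finset.bipartiteAbove]
  have h2 : ∀ b ∈ (orb D x).toFinset,
      (Finset.bipartiteBelow (fun a b => G.Adj a b) (orb D u).toFinset b).card = dg G D x u := by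
    intro b hb
    rw [Set.mem_toFinset] at hb
    obtain ⟨σ, hσ, rfl⟩ := hb
    rw [← dg_apply hD hσ D.one_mem x u]
    unfold dg
    rw [← Set.ncard_coe_finset]
    congr 1
    ext y
    simp [Finset.bipartiteBelow, G.adj_comm]
  rw [Finset.sum_congr rfl h1, Finset.sum_congr rfl h2, Finset.sum_const, Finset.sum_const] at key
  rw [smul_eq_mul, smul_eq_mul] at key
  unfold os
  rw [Set.ncard_eq_toFinset_card' (orb D u), Set.ncard_eq_toFinset_card' (orb D x)]
  exact key

theorem base_symm [Fintype V] {G : SimpleGraph V} {D : Subgroup (Equiv.Perm V)} (hD : D ≤ aut G)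
    (u x : V) (h : base G D u x) : base G D x u := by
  rw [base_iff] at h ⊢
  have h1 := double hD u x
  have h2 := os_pos D u
  have h3 := os_pos D x
  by_contra hc
  push Not at hc
  have h4 : os D u * os D x < os D u * (2 * dg G D u x) := Nat.mul_lt_mul_of_pos_left h h2
  have h5 : os D x * (2 * dg G D x u) ≤ os D x * os D u := Nat.mul_le_mul_left _ hc
  nlinarith

theorem base_apply {G : SimpleGraph V} {D : Subgroup (Equiv.Perm V)} (hD : D ≤ aut G)
    {σ τ : Equiv.Perm V} (hσ : σ ∈ D) (hτ : τ ∈ D) (u x : V) :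
    base G D (σ u) (τ x) ↔ base G D u x := by
  rw [base_iff, base_iff, dg_apply hD hσ hτ, os_apply hτ]

theorem base_fixed [Fintype V] {G : SimpleGraph V} {D : Subgroup (Equiv.Perm V)} (hD : D ≤ aut G)
    {u : V} (hu : ∀ δ ∈ D, δ u = u) (x : V) : G.Adj u x ↔ base G D u x := by
  have hkey : ∀ y ∈ orb D x, (G.Adj u y ↔ G.Adj u x) := by
    rintro y ⟨τ, hτ, rfl⟩
    have h := mem_aut.1 (hD hτ) u x
    rw [hu τ hτ] at h
    exact h
  rw [base_iff]
  have h3 := os_pos D x
  by_cases hx : G.Adj u x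
  · have h4 : dg G D u x = os D x := by
      unfold dg os
      congr 1
      ext y
      constructor
      · exact fun h => h.1
      · exact fun h => ⟨h, (hkey y h).2 hx⟩
    rw [h4]
    constructor
    · intro _
      omega
    · intro _
      exact hx
  · have h4 : dg G D u x = 0 := by
      unfold dg
      rw [Set.ncard_eq_zero (Set.toFinite _)]
      ext y
      constructor
      · rintro ⟨h, h5⟩
        exact hx ((hkey y h).1 h5)
      · intro h
        exact absurd h (Set.notMem_empty _)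
    rw [h4]
    constructor
    · intro h
      exact absurd h hx
    · intro h
      omega

theorem main : S_BASE := by
  intro V _ G D hD
  refine ⟨fun u x h => base_symm hD u x h, fun σ hσ τ hτ u x => base_apply hD hσ hτ u x, ?_, ?_, ?_⟩
  · rintro u x ⟨hne, h⟩
    refine ⟨hne.symm, fun h1 => h ?_⟩
    rw [G.adj_comm, h1]
    exact ⟨base_symm hD x u, base_symm hD u x⟩
  · intro σ hσ u x
    unfold Dif
    rw [base_apply hD hσ hσ, mem_aut.1 (hD hσ) u x, σ.injective.ne_iff]
  · rintro u x hu ⟨_, h⟩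
    exact h (base_fixed hD hu x)

end Pool.Agent.W645.ST.Base
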